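import Pool.Agent.H93.PF.TargetsB

/-!
# Board pfs_modules, row CNT: counting
-/

set_option autoImplicit false

open MeasureTheory Filter Topology Finset Pool.Agent.H93.PF

namespace Pool.Agent.H78.PF

theorem cnt_step (B : Set ℤ) (s x : ℤ) (g : ℕ) (hs : s ≤ x) (h : Nx B x g) :
    cnt B s (x + g) = cnt B s x + 1 := by
  classical
  obtain ⟨h0, h1, h2⟩ := h
  have hset : ((Finset.Ioc s (x + g)).filter fun j => j ∈ B)
      = insert (x + g) ((Finset.Ioc s x).filter fun j => j ∈ B) := by
    ext j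
    simp only [Finset.mem_filter, Finset.mem_Ioc, Finset.mem_insert]
    constructor
    · rintro ⟨⟨ha, hb⟩, hj⟩
      by_cases hx : j ≤ x
      · exact Or.inr ⟨⟨ha, hx⟩, hj⟩
      · by_cases hxg : j < x + g
        · exact absurd hj (h2 j (by omega) hxg)
        · exact Or.inl (by omega)
    · rintro (rfl | ⟨⟨ha, hb⟩, hj⟩)
      · exact ⟨⟨by omega, le_refl _⟩, h1⟩
      · exact ⟨⟨ha, by omega⟩, hj⟩
  have hnot : (x + g) ∉ ((Finset.Ioc s x).filter fun j => j ∈ B) := by
    simp only [Finset.mem_filter, Finset.mem_Ioc]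
    rintro ⟨⟨_, hb⟩, _⟩
    omega
  have hcard := congrArg Finset.card hset
  rw [Finset.card_insert_of_notMem hnot] at hcard
  unfold cnt
  convert hcard

theorem cnt_nil (B : Set ℤ) (s x : ℤ) (h : x ≤ s) : cnt B s x = 0 := by
  unfold cnt
  rw [Finset.Ioc_eq_empty (by omega), Finset.filter_empty, Finset.card_empty]

theorem cnt_pos (B : Set ℤ) (s x : ℤ) (h : s < x) (hx : x ∈ B) : 1 ≤ cnt B s x := by
  classical
  unfold cnt
  exact Finset.card_pos.2 ⟨x, Finset.mem_filter.2 ⟨Finset.mem_Ioc.2 ⟨h, le_refl _⟩, hx⟩⟩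

theorem cnt_same (B : Set ℤ) (s x : ℤ) (hx : x + 1 ∉ B) :
    cnt B s (x + 1) = cnt B s x := by
  classical
  unfold cnt
  congr 1
  ext j
  simp only [Finset.mem_filter, Finset.mem_Ioc]
  constructor
  · rintro ⟨⟨ha, hb⟩, hj⟩
    refine ⟨⟨ha, ?_⟩, hj⟩
    by_contra hcon
    have : j = x + 1 := by omega
    exact hx (this ▸ hj)
  · rintro ⟨⟨ha, hb⟩, hj⟩
    exact ⟨⟨ha, by omega⟩, hj⟩

theorem cnt_mul (B : Set ℤ) (s : ℤ) (n : ℕ) (hn : 0 < n)
    (hB : ∀ t ∈ B, ∀ u ∈ B, t < u → t + n ≤ u) (hs : s ∈ B) (k : ℕ) :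
    cnt B s (s + k) * n ≤ k := by
  induction k using Nat.strong_induction_on with
  | _ k ih =>
    rcases Nat.eq_zero_or_pos k with rfl | hk
    · rw [cnt_nil B s _ (by push_cast; omega)]
      omega
    · by_cases hmem : s + k ∈ B
      · have h1 : s + n ≤ s + k := hB s hs _ hmem (by omega)
        have hnk : n ≤ k := by omega
        have hstep : cnt B s (s + ((k - n : ℕ) : ℤ) + n) = cnt B s (s + ((k - n : ℕ) : ℤ)) + 1 := by
          refine cnt_step B s _ n (by omega) ⟨hn, ?_, ?_⟩
          · have : s + ((k - n : ℕ) : ℤ) + n = s + k := by omega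
            rw [this]
            exact hmem
          · intro i hi1 hi2 hi
            have := hB i hi _ hmem (by omega)
            omega
        have heq : s + ((k - n : ℕ) : ℤ) + n = s + k := by omega
        rw [heq] at hstep
        rw [hstep, add_mul, one_mul]
        have := ih (k - n) (by omega)
        omega
      · have heq : s + (k : ℤ) = s + ((k - 1 : ℕ) : ℤ) + 1 := by omega
        rw [heq] at hmem ⊢
        rw [cnt_same B s _ hmem]
        have := ih (k - 1) (by omega)
        omega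

theorem pf_CNT : T_CNT := by
  intro B s
  refine ⟨fun x g hx h => cnt_step B s x g hx h, fun x h => cnt_nil B s x h,
    fun x h hx => cnt_pos B s x h hx, ?_⟩
  intro n x hB hs hx
  rcases Nat.eq_zero_or_pos n with rfl | hn
  · simp only [Nat.cast_zero, mul_zero]
    omega
  · have h := cnt_mul B s n hn hB hs (x - s).toNat
    have heq : s + ((x - s).toNat : ℤ) = x := by omega
    rw [heq] at h
    have h' : ((cnt B s x * n : ℕ) : ℤ) ≤ ((x - s).toNat : ℤ) := by exact_mod_cast h
    push_cast at h'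
    omega

end Pool.Agent.H78.PF
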