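import Pool.Agent.H93.PF.TargetsD

/-!
# Board pfs_modules, row PSQ: the partitions
-/

set_option autoImplicit false

open MeasureTheory Filter Topology Finset Pool.Agent.H93.PF

namespace Pool.Agent.H78.PF

/-- number of the classes -/
def KK (s : ℕ → ℕ) : ℕ → ℕ
  | 0 => s 0
  | j + 1 => KK s j * s (j + 1)

/-- the joined partitions -/
def PP {Y : Type} (s : ℕ → ℕ) (S : (j : ℕ) → Y → Fin (s j)) : (j : ℕ) → Y → Fin (KK s j)
  | 0 => S 0
  | j + 1 => fun y => finProdFinEquiv (PP s S j y, S (j + 1) y)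

theorem build {Y : Type} [MeasurableSpace Y] (s : ℕ → ℕ) (S : (j : ℕ) → Y → Fin (s j))
    (hS : ∀ j, Measurable (S j)) :
    ∃ (K : ℕ → ℕ) (P : (j : ℕ) → Y → Fin (K j)) (π : (j : ℕ) → Fin (K (j + 1)) → Fin (K j)),
      (∀ j, Measurable (P j)) ∧ (∀ j y, P j y = π j (P (j + 1) y)) ∧
      ∀ j, ∃ σ : Fin (K j) → Fin (s j), ∀ y, S j y = σ (P j y) := by
  refine ⟨KK s, PP s S, fun j (x : Fin (KK s j * s (j + 1))) => (finProdFinEquiv.symm x).1,
    ?_, ?_, ?_⟩
  · intro j
    induction j with
    | zero => exact hS 0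
    | succ j ih =>
      have h2 : Measurable fun p : Fin (KK s j) × Fin (s (j + 1)) => finProdFinEquiv p :=
        measurable_of_countable _
      have h3 : Measurable fun y => (PP s S j y, S (j + 1) y) := ih.prodMk (hS (j + 1))
      exact h2.comp h3
  · intro j y
    exact (congrArg Prod.fst (Equiv.symm_apply_apply finProdFinEquiv (PP s S j y, S (j + 1) y))).symm
  · intro j
    cases j with
    | zero => exact ⟨id, fun y => rfl⟩
    | succ j =>
      refine ⟨fun (x : Fin (KK s j * s (j + 1))) => (finProdFinEquiv.symm x).2, fun y => ?_⟩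
      exact (congrArg Prod.snd
        (Equiv.symm_apply_apply finProdFinEquiv (PP s S j y, S (j + 1) y))).symm

theorem pf_PSQ (hHNB : T_HNB) (hHMO : T_HMO) : T_PSQ := by
  intro Y _ _ ν _ T h' δ hh hδ
  have hle : ∀ (K : ℕ) (P : Y → Fin K), Measurable P → ((entP ν T P : ℝ) : EReal) ≤ ksEnt ν T := by
    intro K P hP
    unfold ksEnt
    exact le_iSup_of_le K (le_iSup_of_le P (le_iSup_of_le hP le_rfl))
  have h0 : (0 : EReal) ≤ ksEnt ν T := by
    have h1 := hle 1 (fun _ => 0) measurable_const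
    have h2 := (hHNB Y ν T 1 (fun _ => 0) measurable_const).2.1
    refine le_trans ?_ h1
    exact_mod_cast h2
  obtain ⟨E, hE⟩ : ∃ E : ℝ, ksEnt ν T = (E : EReal) := by
    refine ⟨(ksEnt ν T).toReal, (EReal.coe_toReal (ne_top_of_lt hh) ?_).symm⟩
    intro hb
    rw [hb] at h0
    exact absurd h0 (not_le.2 (EReal.bot_lt_coe 0))
  have hEle : ∀ (K : ℕ) (P : Y → Fin K), Measurable P → entP ν T P ≤ E := by
    intro K P hP
    have := hle K P hP
    rw [hE] at this
    exact_mod_cast this
  have hEh : E < h' := by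
    rw [hE] at hh
    exact_mod_cast hh
  have hR : ∀ j : ℕ, ∃ (k : ℕ) (R : Y → Fin k), Measurable R ∧ E - δ j < entP ν T R := by
    intro j
    have hlt : ((E - δ j : ℝ) : EReal) < ksEnt ν T := by
      rw [hE]
      exact_mod_cast (by linarith [hδ j] : E - δ j < E)
    unfold ksEnt at hlt
    obtain ⟨k, hk⟩ := lt_iSup_iff.1 hlt
    obtain ⟨R, hR⟩ := lt_iSup_iff.1 hk
    obtain ⟨hm, hR'⟩ := lt_iSup_iff.1 hR
    exact ⟨k, R, hm, by exact_mod_cast hR'⟩
  choose k R hRm hRE using hR
  obtain ⟨b, hbm, hbi⟩ := MeasurableSpace.measurable_injection_nat_bool_of_countablySeparated Y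
  -- the new information
  let S : (j : ℕ) → Y → Fin (k j * 2) := fun j y =>
    finProdFinEquiv (R j y, if b y j = true then (1 : Fin 2) else 0)
  have hSm : ∀ j, Measurable (S j) := by
    intro j
    have hb : Measurable fun y => (if b y j = true then (1 : Fin 2) else 0) := by
      have h1 : Measurable fun y => b y j := (measurable_pi_apply j).comp hbm
      exact (measurable_of_countable fun t : Bool => if t = true then (1 : Fin 2) else 0).comp h1
    exact (measurable_of_countable (fun p : Fin (k j) × Fin 2 => finProdFinEquiv p)).comp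
      ((hRm j).prodMk hb)
  obtain ⟨K, P, π, hPm, hPπ, hσ⟩ := build (fun j => k j * 2) S hSm
  refine ⟨K, P, π, hPm, hPπ, ?_, ?_, ?_⟩
  · intro y y' h
    refine hbi (funext fun j => ?_)
    obtain ⟨σ, hσ'⟩ := hσ j
    have h1 : S j y = S j y' := by rw [hσ', hσ', h j]
    have h2 := congrArg Prod.snd (finProdFinEquiv.injective h1)
    simp only at h2
    by_cases hb1 : b y j = true <;> by_cases hb2 : b y' j = true
    · rw [hb1, hb2]
    · rw [if_pos hb1, if_neg hb2] at h2
      exact absurd h2 (by decide)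
    · rw [if_neg hb1, if_pos hb2] at h2
      exact absurd h2 (by decide)
    · rw [Bool.not_eq_true] at hb1 hb2
      rw [hb1, hb2]
  · exact lt_of_le_of_lt (hEle _ _ (hPm 0)) hEh
  · intro j
    obtain ⟨σ, hσ'⟩ := hσ j
    have h1 : entP ν T (R j) ≤ entP ν T (P j) := by
      refine hHMO Y ν T (k j) (K j) (R j) (P j) (fun x => (finProdFinEquiv.symm (σ x)).1) (hPm j)
        fun y => ?_
      rw [← hσ' y, Equiv.symm_apply_apply]
    have h2 := hEle _ _ (hPm (j + 1))
    have h3 := hRE j
    linarith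

end Pool.Agent.H78.PF
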