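import Pool.Agent.H93.PF.TargetsB

/-!
# Board pfs_modules, row SKS: the step of the skeleton
-/

set_option autoImplicit false

open MeasureTheory Filter Topology Finset Pool.Agent.H93.PF

namespace Pool.Agent.H78.PF

/-- `v` is the next point of `B` after `u` -/
def Sx (B : Set ℤ) (u v : ℤ) : Prop := u < v ∧ v ∈ B ∧ ∀ j, u < j → j < v → j ∉ B

theorem Sx.nx {B : Set ℤ} {u v : ℤ} (h : Sx B u v) : Nx B u (v - u).toNat := by
  obtain ⟨h0, h1, h2⟩ := h
  have e : u + ((v - u).toNat : ℤ) = v := by omega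
  refine ⟨by omega, by rw [e]; exact h1, fun i hi hi' => h2 i hi (by omega)⟩

theorem Sx.toNat {B : Set ℤ} {u v : ℤ} (h : Sx B u v) : u + ((v - u).toNat : ℤ) = v := by
  have := h.1
  omega

theorem skr' (hSKR : T_SKR) {L : ℕ} {B : ℕ → Set ℤ} {c : ℤ → ℕ × ℕ} (hS : Sk L B c) (hL : 0 < L)
    {k : ℕ} {s t r : ℤ} (hs : s ∈ B k) (hst : Sx (B k) s t) (htr : Sx (B k) t r) :
    s ∈ B (k + 1) ↔ c t = (k % 3, 1) ∧ c r = (k % 3, 2) := by
  have h := hSKR L B c hS hL k s (t - s).toNat (r - t).toNat hs hst.nx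
    (by rw [hst.toNat]; exact htr.nx)
  rw [hst.toNat, htr.toNat] at h
  exact h

theorem sx_shift {B : Set ℤ} {q : ℕ} {a b u v : ℤ} (hQ : QI B q a b) (h : Sx B u v) (hu : a ≤ u)
    (hv : v + q < b) : Sx B (u + q) (v + q) := by
  obtain ⟨h0, h1, h2⟩ := h
  refine ⟨by omega, (hQ v (by omega) hv).1 h1, fun j hj hj' hjB => ?_⟩
  have := (hQ (j - q) (by omega) (by omega)).2 (by rw [sub_add_cancel]; exact hjB)
  exact h2 _ (by omega) (by omega) this

theorem gg_lt (L k : ℕ) (hL : 0 < L) : 2 * gg L k < nn L (k + 1) := by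
  cases k with
  | zero =>
    simp only [gg, nn]
    omega
  | succ k =>
    simp only [gg, nn]
    have h : 0 < 16 ^ (k + 1) * L := Nat.mul_pos (by positivity) hL
    nlinarith

theorem pf_SKS (hSKD : T_SKD) (hSKR : T_SKR) (hSKM : T_SKM) : T_SKS := by
  intro L B c hS hL k q a b hq hQ hc hab hj0
  obtain ⟨j0, hj0B, hj0a, hj0b⟩ := hj0
  obtain ⟨-, hD2, hD3⟩ := hSKD L B c hS hL k
  obtain ⟨hE1, -, -⟩ := hSKD L B c hS hL (k + 1)
  have hgg := gg_lt L k hL
  have hq' : (0 : ℤ) < q := by exact_mod_cast hq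
  -- the successor
  have hsucc : ∀ u : ℤ, ∃ v, Sx (B k) u v ∧ v ≤ u + gg L k := by
    intro u
    obtain ⟨v, hv, h1, h2, h3⟩ := hD2 (u + 1)
    exact ⟨v, ⟨by omega, hv, fun j hj hj' => h3 j (by omega) hj'⟩, by omega⟩
  -- the first point
  obtain ⟨x, hx, hxa, hxg, hxf⟩ := hD2 a
  have hxj : x ≤ j0 := by
    by_contra h
    exact hxf j0 hj0a (by omega) hj0B
  have hxq : x < a + q := by
    by_contra h
    have := (hQ (x - q) (by omega) (by omega)).2 (by rw [sub_add_cancel]; exact hx)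
    exact hxf _ (by omega) (by omega) this
  have hxqB : x + q ∈ B k := (hQ x hxa (by omega)).1 hx
  have hcx : c (x + q) = c x := hc x hx hxa (by omega)
  obtain ⟨x2, hx2, hx2g⟩ := hsucc x
  have hx2le : x2 ≤ x + q := by
    by_contra h
    exact hx2.2.2 (x + q) (by omega) (by omega) hxqB
  rcases eq_or_lt_of_le hx2le with heq | hlt
  · -- Case 1
    exfalso
    subst heq
    have h1 : Sx (B k) (x + q) (x + q + q) := sx_shift hQ hx2 hxa (by omega)
    have hcx2 : c (x + q + q) = c (x + q) := hc (x + q) hxqB (by omega) (by omega)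
    by_cases hxk : x ∈ B (k + 1)
    · obtain ⟨e1, e2⟩ := (skr' hSKR hS hL hx hx2 h1).1 hxk
      rw [hcx2, e1] at e2
      have := congrArg Prod.snd e2
      simp at this
    · by_cases hxqk : x + q ∈ B (k + 1)
      · have hnot : x + q + q ∉ B (k + 1) := by
          intro h
          have := hE1 _ hxqk _ h (by omega)
          omega
        have hone := hS.one k (x + q) _ hxqk h1.nx (by rw [h1.toNat]; exact hnot)
        rw [h1.toNat, hcx2, hcx] at hone
        obtain ⟨p, hp, hpx, hpg, hpn⟩ := hD3 x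
        have hpS : Sx (B k) p x := ⟨hpx, hx, hpn⟩
        by_cases hpk : p ∈ B (k + 1)
        · have := hE1 _ hpk _ hxqk (by omega)
          omega
        · have h2 := hS.suc k p _ hp hpk hpS.nx (by rw [hpS.toNat]; exact hxk)
          rw [hpS.toNat] at h2
          have h3 := hS.pos k p hp hpk
          omega
      · have h2 := hS.suc k x _ hx hxk hx2.nx (by rw [hx2.toNat]; exact hxqk)
        rw [hx2.toNat, hcx] at h2
        omega
  · -- Case 2
    have hx2a : x2 < a + q := by
      by_contra h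
      have := (hQ (x2 - q) (by omega) (by omega)).2 (by rw [sub_add_cancel]; exact hx2.2.1)
      exact hxf _ (by omega) (by omega) this
    have hx2q : x2 + q ∈ B k := (hQ x2 (by have := hx2.1; omega) (by omega)).1 hx2.2.1
    have hex : ∃ y0 ∈ B (k + 1), x ≤ y0 ∧ y0 ≤ x + q := by
      by_contra h
      push Not at h
      have := hSKM L B c hS hL k x (x + q) hx hxqB (by omega) (fun j hj hj' hjB => by
        have := h j hjB hj
        omega)
      rw [hcx] at this
      omega
    obtain ⟨y0, hy0, hy0x, hy0q⟩ := hex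
    rcases eq_or_lt_of_le hy0q with heq | hlt0
    · subst heq
      obtain ⟨x3, hx3, -⟩ := hsucc x2
      have hx3le : x3 ≤ x + q := by
        by_contra h
        exact hx3.2.2 (x + q) (by omega) (by omega) hxqB
      have h1 : Sx (B k) (x + q) (x2 + q) := sx_shift hQ hx2 hxa (by omega)
      have h2 : Sx (B k) (x2 + q) (x3 + q) := sx_shift hQ hx3 (by have := hx2.1; omega) (by omega)
      obtain ⟨e1, e2⟩ := (skr' hSKR hS hL hxqB h1 h2).1 hy0
      have hx2lt := hx2.1
      have hx3lt := hx3.1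
      rw [hc x2 hx2.2.1 (by omega) (by omega)] at e1
      rw [hc x3 hx3.2.1 (by omega) (by omega)] at e2
      exact ⟨x, (skr' hSKR hS hL hx hx2 hx3).2 ⟨e1, e2⟩, hxa, hy0, by omega⟩
    · have hy0k : y0 ∈ B k := hS.nest k hy0
      obtain ⟨y1, hy1, -⟩ := hsucc y0
      obtain ⟨y2, hy2, -⟩ := hsucc y1
      have hy1lt := hy1.1
      have hy2lt := hy2.1
      have hx2lt := hx2.1
      have hy1le : y1 ≤ x + q := by
        by_contra h
        exact hy1.2.2 (x + q) (by omega) (by omega) hxqB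
      have hy2le : y2 ≤ x2 + q := by
        by_contra h
        exact hy2.2.2 (x2 + q) (by omega) (by omega) hx2q
      have h1 : Sx (B k) (y0 + q) (y1 + q) := sx_shift hQ hy1 (by omega) (by omega)
      have h2 : Sx (B k) (y1 + q) (y2 + q) := sx_shift hQ hy2 (by omega) (by omega)
      obtain ⟨e1, e2⟩ := (skr' hSKR hS hL hy0k hy1 hy2).1 hy0
      have hy0qB : y0 + q ∈ B k := (hQ y0 (by omega) (by omega)).1 hy0k
      refine ⟨y0, hy0, by omega, (skr' hSKR hS hL hy0qB h1 h2).2 ⟨?_, ?_⟩, by omega⟩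
      · rw [hc y1 hy1.2.1 (by omega) (by omega)]
        exact e1
      · rw [hc y2 hy2.2.1 (by omega) (by omega)]
        exact e2

end Pool.Agent.H78.PF
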