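import Pool.Agent.H93.PF.TargetsB

/-!
# Board pfs_modules, row TH3: numerics, at least three letters
-/

set_option autoImplicit false

open MeasureTheory Filter Topology Finset Pool.Agent.H93.PF

namespace Pool.Agent.H78.PF

theorem geo (r : ℝ) (N : ℕ) : (∑ q ∈ Icc 1 N, r ^ q) * (1 - r) = r - r ^ (N + 1) := by
  induction N with
  | zero => simp
  | succ N ih =>
    rw [Finset.sum_Icc_succ_top (by omega), add_mul, ih]
    ring

theorem pf_TH3 (hMMF : T_MMF) : T_TH3 := by
  intro d β plus hd hβ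
  have hm : ∀ q : ℕ, 0 < q → 4 * q < mm β plus q := by
    intro q hq
    have h := (hMMF β plus q 0 (by linarith) hq).2.1
    have hq' : (0 : ℝ) < q := by exact_mod_cast hq
    have : ((4 * q : ℕ) : ℝ) < (mm β plus q : ℝ) := by
      push_cast
      nlinarith
    exact_mod_cast this
  refine ⟨hm, by norm_num, by norm_num, by norm_num, ?_, ?_⟩
  · intro N
    have hle : ∑ q ∈ Icc 1 N, ((5 / 2 : ℝ) ^ (mm β plus q - q - 1))⁻¹
        ≤ ∑ q ∈ Icc 1 N, (8 / 125 : ℝ) ^ q := by
      refine Finset.sum_le_sum fun q hq => ?_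
      have hq0 : 0 < q := by
        have := (Finset.mem_Icc.1 hq).1
        omega
      have h4 := hm q hq0
      have h1 : ((5 / 2 : ℝ) ^ (3 * q)) ≤ (5 / 2 : ℝ) ^ (mm β plus q - q - 1) :=
        pow_le_pow_right₀ (by norm_num) (by omega)
      have h2 : (8 / 125 : ℝ) ^ q = ((5 / 2 : ℝ) ^ (3 * q))⁻¹ := by
        rw [pow_mul, ← inv_pow]
        norm_num
      rw [h2]
      exact inv_anti₀ (by positivity) h1
    have hg := geo (8 / 125 : ℝ) N
    have hp : (0 : ℝ) ≤ (8 / 125 : ℝ) ^ (N + 1) := by positivity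
    have hd' : (3 : ℝ) ≤ d := by exact_mod_cast hd
    linarith
  · intro N
    have hle : ∑ q ∈ Icc 1 N, ((5 / 2 : ℝ) ^ (pp (mm β plus) q - q))⁻¹
        ≤ ∑ q ∈ Icc 1 N, (2 / 5 : ℝ) * (2 / 5 : ℝ) ^ q := by
      refine Finset.sum_le_sum fun q hq => ?_
      have hq0 : 0 < q := by
        have := (Finset.mem_Icc.1 hq).1
        omega
      have h4 := hm q hq0
      have h1 : ((5 / 2 : ℝ) ^ (q + 1)) ≤ (5 / 2 : ℝ) ^ (pp (mm β plus) q - q) := by
        refine pow_le_pow_right₀ (by norm_num) ?_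
        unfold pp
        omega
      have h2 : (2 / 5 : ℝ) * (2 / 5 : ℝ) ^ q = ((5 / 2 : ℝ) ^ (q + 1))⁻¹ := by
        rw [← pow_succ', ← inv_pow]
        norm_num
      rw [h2]
      exact inv_anti₀ (by positivity) h1
    rw [← Finset.mul_sum] at hle
    have hg := geo (2 / 5 : ℝ) N
    have hp : (0 : ℝ) ≤ (2 / 5 : ℝ) ^ (N + 1) := by positivity
    linarith

end Pool.Agent.H78.PF
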